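import Pool.Agent.Q17.Balls.One

/-!
# The growth of the number of marked balls (Q2)

`f d n` (resp. `g d n`) is the number of isomorphism classes of marked balls of radius `n` of
marked `d`-generated groups (resp. of finite marked `d`-generated groups).  For `d = 1` both are
`2n+2`; for `d ≥ 2` both are doubly exponential, `exp (exp (Θ_d(n)))`.
-/

namespace Pool.Agent.Results.MP_0de6ea_al

open Q17.Balls

theorem BallGrowth.result :
    (∀ d n, (allBalls d n).Finite ∧ finBalls d n ⊆ allBalls d n) ∧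
    (∀ n, f 1 n = 2 * n + 2 ∧ g 1 n = 2 * n + 2) ∧
    (∀ d, 2 ≤ d → ∀ n, 8 ≤ n →
      2 ^ 2 ^ ((n - 8) / 4) ≤ g d n ∧ g d n ≤ f d n ∧
        f d n ≤ 2 ^ (2 * d + 1) ^ (2 * n + 1)) ∧
    (∃ c : ℝ, 0 < c ∧ ∀ d : ℕ, 2 ≤ d → ∃ C : ℝ, 0 < C ∧ ∀ n : ℕ, 22 ≤ n →
      Real.exp (Real.exp (c * n)) ≤ (g d n : ℝ) ∧ (g d n : ℝ) ≤ (f d n : ℝ) ∧
        (f d n : ℝ) ≤ Real.exp (Real.exp (C * n))) := by
  refine ⟨fun d n => ⟨finite_allBalls d n, finBalls_subset d n⟩, card_one,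
    fun d hd n hn => ⟨lower_div hd hn, g_le_f d n, f_le d n⟩,
    ⟨Real.log 2 / 16, by positivity, fun d hd => ⟨3 * Real.log (2 * d + 1), ?_, ?_⟩⟩⟩
  · have h1 : (2 : ℝ) ≤ d := by exact_mod_cast hd
    have h2 : 0 < Real.log (2 * (d : ℝ) + 1) := Real.log_pos (by linarith)
    positivity
  · intro n hn
    exact ⟨exp_lower hd hn, by exact_mod_cast g_le_f d n, exp_upper (by omega)⟩

end Pool.Agent.Results.MP_0de6ea_al
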